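import Mathlib
import Pool.Agent.Helper94_CTD.Stmts

/-!
# D15 and D16
-/

open Set

namespace Pool.Agent.CTD.H92

theorem d15 (h5 : D5An) (h3 : A3Ix) (h4 : A4Sm) : D15P5 := by
  intro B _ io hio y
  by_contra hc
  set c : B := (⨅ ξ, ⨅ _ : True, ⨆ η, ⨆ _ : η < o1, y ξ η) ⊓
    (⨅ ξ, ⨅ _ : True, ⨅ ξ', ⨅ _ : True, ⨅ _ : ξ ≠ ξ', ⨅ η, ⨅ _ : η < o1, (y ξ η ⊓ y ξ' η)ᶜ) with hcdef
  obtain ⟨q0, hq0⟩ := hio.exists_le c hc
  have hstep : ∀ α : Th, ∃ (p : Cnd) (η : Th), η < o1 ∧ io p ≤ y α η ∧ io p ≤ c := by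
    intro α
    have h1 : io q0 ≤ ⨆ η, ⨆ _ : η < o1, y α η := by
      refine hq0.trans (inf_le_left.trans ?_)
      exact (iInf_le _ α).trans (iInf_le _ trivial)
    have h2 : ∃ η, ∃ _ : η < o1, y α η ⊓ io q0 ≠ ⊥ := by
      by_contra hcon
      push Not at hcon
      apply hio.ne_bot q0
      have h3 : io q0 = (⨆ η, ⨆ _ : η < o1, y α η) ⊓ io q0 := by
        rw [inf_eq_right.2 h1]
      rw [h3, iSup_inf_eq, iSup_eq_bot]
      intro η
      rw [iSup_inf_eq, iSup_eq_bot]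
      intro hη
      exact hcon η hη
    obtain ⟨η, hη, h3⟩ := h2
    obtain ⟨q, hq, hq'⟩ := hio.dense q0 (y α η) h3
    exact ⟨q, η, hη, hq', (hio.mono _ _ hq).trans hq0⟩
  choose p η hη hp1 hp2 using hstep
  have hinc : ∀ α α', α ≠ α' → η α = η α' → ¬ ∃ r : Cnd, r ≤ p α ∧ r ≤ p α' := by
    rintro α α' hne he ⟨r, h1, h2⟩
    apply hio.ne_bot r
    have h3 : io r ≤ y α (η α) := (hio.mono _ _ h1).trans (hp1 α)
    have h4 : io r ≤ y α' (η α) := by
      rw [he]; exact (hio.mono _ _ h2).trans (hp1 α')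
    have h5 : io r ≤ (y α (η α) ⊓ y α' (η α))ᶜ := by
      refine (hio.mono _ _ h1).trans ((hp2 α).trans (inf_le_right.trans ?_))
      exact (iInf_le _ α).trans ((iInf_le _ trivial).trans ((iInf_le _ α').trans
        ((iInf_le _ trivial).trans ((iInf_le _ hne).trans ((iInf_le _ (η α)).trans
          (iInf_le _ (hη α)))))))
    have h6 : io r ≤ (y α (η α) ⊓ y α' (η α)) ⊓ (y α (η α) ⊓ y α' (η α))ᶜ :=
      le_inf (le_inf h3 h4) h5
    rw [inf_compl_self] at h6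
    exact le_bot_iff.1 h6
  have hsm : ∀ ξ : W1, Small.{0} {α : Th | η α = ξ.1} := by
    intro ξ
    obtain ⟨ζ, hζ⟩ := h5 (p '' {α : Th | η α = ξ.1}) (by
      rintro _ ⟨α, hα, rfl⟩ _ ⟨α', hα', rfl⟩ hr
      by_cases he : α = α'
      · rw [he]
      · exact absurd hr (hinc α α' he (by rw [hα.out, hα'.out])))
    have : Small.{0} {s : Cnd | Spt (T ζ) s} := h4.1 (T ζ) (h3.2.2.2 ζ)
    refine small_of_injective (β := {s : Cnd | Spt (T ζ) s})
      (f := fun α : {α : Th | η α = ξ.1} => ⟨p α.1, hζ _ ⟨α.1, α.2, rfl⟩⟩) ?_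
    intro α α' he
    by_contra hne
    have he' : p α.1 = p α'.1 := congrArg Subtype.val he
    exact hinc α.1 α'.1 (fun h => hne (Subtype.ext h)) (by rw [α.2.out, α'.2.out])
      ⟨p α.1, le_refl _, by rw [he']⟩
  have hW : Small.{0} W1 := inferInstance
  have hU : Small.{0} (⋃ ξ : W1, {α : Th | η α = ξ.1}) := small_iUnion _
  have hall : (⋃ ξ : W1, {α : Th | η α = ξ.1}) = Set.univ := by
    ext α
    simp only [mem_iUnion, mem_univ, iff_true]
    exact ⟨⟨η α, hη α⟩, rfl⟩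
  rw [hall] at hU
  have hTh : Small.{0} Th := small_of_injective (β := (Set.univ : Set Th))
    (f := fun α => ⟨α, mem_univ _⟩) (fun a b h => congrArg Subtype.val h)
  exact not_small_ordinal.{0, 0} hTh

end Pool.Agent.CTD.H92
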