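import Mathlib
import Pool.Agent.Helper94_CTD.Stmts

/-!
# D16
-/

open Set

namespace Pool.Agent.CTD.H92

theorem small_emb {X : Type 1} [Small.{0} X] : Nonempty (X ↪ Th) := by
  have h1 : Cardinal.mk X < Cardinal.univ.{0, 1} := by
    have hX : Small.{0} X := inferInstance
    have h := Cardinal.small_iff_lift_mk_lt_univ.1 hX
    simpa using h
  have h2 : Cardinal.mk X ≤ Cardinal.mk Th := by
    have h3 : Cardinal.mk Th = Cardinal.univ.{0, 1} := Cardinal.mk_ordinal.{0}
    rw [h3]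
    exact h1.le
  exact h2

theorem d16 (h2 : A2Bd) (h3 : A3Ix) (h7 : D7Go) : D16P6 := by
  intro B _ io hio y
  by_contra hcon
  push Not at hcon
  obtain ⟨h71, -, -, -, h75, h76⟩ := h7 B io hio
  have hW : Small.{0} W1 := inferInstance
  have hTm : ∀ ζ ζ' : Th, ζ ≤ ζ' → T ζ ⊆ T ζ' := fun ζ ζ' h t ht => lt_of_lt_of_le ht h
  -- the level of a branch
  have hlev : ∀ b : Br, ∃ ζ, ∀ ξ : W1, Good io (T ζ) (y b ξ.1) := by
    intro b
    exact h2 W1 (fun ξ ζ => Good io (T ζ) (y b ξ.1))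
      (fun ξ α β hab h => h71 _ _ _ (hTm α β hab) h) (fun ξ => h75 _)
  choose lv hlv using hlev
  -- the functions of level ζ
  have hG : ∀ ζ : Th, Small.{0} (W1 → {b : B | Good io (T ζ) b}) := by
    intro ζ
    have : Small.{0} {b : B | Good io (T ζ) b} := h76 (T ζ) (h3.2.2.2 ζ)
    exact small_Pi _
  have hemb : ∀ ζ : Th, Nonempty ((W1 → {b : B | Good io (T ζ) b}) ↪ Th) := by
    intro ζ
    have := hG ζ
    exact small_emb
  have cd : ∀ ζ : Th, (W1 → {b : B | Good io (T ζ) b}) ↪ Th := fun ζ => (hemb ζ).some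
  have hinj : Function.Injective (fun b : Br =>
      ((lv b, cd (lv b) (fun ξ => ⟨y b ξ.1, hlv b ξ⟩)) : Th × Th)) := by
    intro b b' he
    by_contra hne
    obtain ⟨ξ, hξ, hy⟩ := hcon b b' hne
    apply hy
    have h1 : lv b = lv b' := congrArg Prod.fst he
    have h4 : cd (lv b) (fun ξ => ⟨y b ξ.1, hlv b ξ⟩) = cd (lv b') (fun ξ => ⟨y b' ξ.1, hlv b' ξ⟩) :=
      congrArg Prod.snd he
    have key : ∀ (l : Th) (hl : ∀ ξ : W1, Good io (T l) (y b' ξ.1)), l = lv b →
        cd (lv b) (fun ξ => ⟨y b ξ.1, hlv b ξ⟩) = cd l (fun ξ => ⟨y b' ξ.1, hl ξ⟩) →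
        y b ξ = y b' ξ := by
      intro l hl hlb h5
      subst hlb
      have h6 := (cd (lv b)).injective h5
      have h8 := congrFun h6 ⟨ξ, hξ⟩
      exact congrArg Subtype.val h8
    exact key (lv b') (hlv b') h1.symm h4
  have hcard : Cardinal.mk Br ≤ Cardinal.mk (Th × Th) := Cardinal.mk_le_of_injective hinj
  have hinf : Cardinal.aleph0 ≤ Cardinal.mk Th := by
    have h5 : Function.Injective (fun n : ℕ => ((n : Ordinal.{0}) : Th)) := Nat.cast_injective
    have h6 := Cardinal.mk_le_of_injective (f := fun n : ULift.{1} ℕ => ((n.down : Ordinal.{0}) : Th))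
      (fun a b h => ULift.ext _ _ (h5 h))
    simpa using h6
  have h5 : Cardinal.mk (Th × Th) = Cardinal.mk Th := by
    rw [← Cardinal.mul_def]
    exact Cardinal.mul_eq_self hinf
  have h6 : Cardinal.mk Br = 2 ^ Cardinal.mk Th := by
    simp [Br]
  rw [h5, h6] at hcard
  exact absurd hcard (not_le.2 (Cardinal.cantor _))

end Pool.Agent.CTD.H92
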